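import Mathlib

set_option autoImplicit false
set_option maxSynthPendingDepth 3

namespace Pool.Agent.Results.MP_4d07cf_an.NotAlg

open Filter Topology

/-- `n` times differentiable at every point. -/
def Cn (n : ℕ) (f : ℝ → ℝ) : Prop := ∀ k < n, Differentiable ℝ (deriv^[k] f)

/-- the Hölder quotient has `limsup = ∞` at every point, for every exponent. -/
def NowhereHolder (g : ℝ → ℝ) : Prop :=
  ∀ x, ∀ α > (0 : ℝ), ∀ C : ℝ, ∃ᶠ y in 𝓝[≠] x, C < |g y - g x| / |y - x| ^ α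

def An (n : ℕ) : Set (ℝ → ℝ) := {f | Cn n f ∧ NowhereHolder (deriv^[n] f)}

def StronglyAlgebrable (κ : Cardinal) (A : Set (ℝ → ℝ)) : Prop :=
  ∃ X : Set (ℝ → ℝ), Cardinal.mk X = κ ∧ ∀ k ≥ 1, ∀ P : MvPolynomial (Fin k) ℝ, P ≠ 0 →
    MvPolynomial.constantCoeff P = 0 → ∀ y : Fin k → ℝ → ℝ, Function.Injective y → (∀ i, y i ∈ X) →
      MvPolynomial.aeval y P ≠ 0 ∧ MvPolynomial.aeval y P ∈ A

def D (x : ℝ) : ℕ → (ℝ → ℝ) → Prop
  | 0, u => ∃ C, ∀ᶠ y in 𝓝 x, |u y| ≤ C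
  | j + 1, u => Differentiable ℝ u ∧ D x j (deriv u)

lemma D.pred {x : ℝ} : ∀ {j : ℕ} {u : ℝ → ℝ}, D x (j + 1) u → D x j u
  | 0, u, h => ⟨|u x| + 1, (h.1.continuous.abs.tendsto x).eventually
      (eventually_le_nhds (lt_add_one _))⟩
  | _ + 1, _, h => ⟨h.1, h.2.pred⟩

lemma D.add {x : ℝ} : ∀ {j : ℕ} {u v : ℝ → ℝ}, D x j u → D x j v → D x j (u + v)
  | 0, _, _, ⟨C, h⟩, ⟨C', h'⟩ => ⟨C + C', (h.and h').mono fun _ hy =>
      (abs_add_le _ _).trans (add_le_add hy.1 hy.2)⟩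
  | _ + 1, u, v, h, h' => ⟨h.1.add h'.1, by
      rw [show deriv (u + v) = deriv u + deriv v from funext fun y => deriv_add (h.1 y) (h'.1 y)]
      exact h.2.add h'.2⟩

lemma D.mul {x : ℝ} : ∀ {j : ℕ} {u v : ℝ → ℝ}, D x j u → D x j v → D x j (u * v)
  | 0, _, _, ⟨C, h⟩, ⟨C', h'⟩ => ⟨C * C', (h.and h').mono fun _ hy => by
      rw [Pi.mul_apply, abs_mul]
      exact mul_le_mul hy.1 hy.2 (abs_nonneg _) ((abs_nonneg _).trans hy.1)⟩
  | _ + 1, u, v, h, h' => ⟨h.1.mul h'.1, by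
      rw [show deriv (u * v) = deriv u * v + u * deriv v from
        funext fun y => deriv_mul (h.1 y) (h'.1 y)]
      exact (h.2.mul h'.pred).add (h.pred.mul h'.2)⟩

lemma D.const {x : ℝ} : ∀ (j : ℕ) (c : ℝ), D x j (fun _ => c)
  | 0, c => ⟨|c|, Eventually.of_forall fun _ => le_rfl⟩
  | j + 1, c => ⟨differentiable_const c, by rw [deriv_const']; exact D.const j 0⟩

lemma key {x : ℝ} : ∀ (j : ℕ) (u v : ℝ → ℝ), D x j u → D x j v →
    ∃ w, D x 0 w ∧ deriv^[j] (u * v ^ (j + 1)) = w * v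
  | 0, u, v, h, _ => ⟨u, h, by simp⟩
  | j + 1, u, v, h, h' => by
    obtain ⟨w, h1, h2⟩ := key j (deriv u * v + (fun _ => (j + 2 : ℝ)) * (u * deriv v)) v
      ((h.2.mul h'.pred).add ((D.const _ _).mul (h.pred.mul h'.2))) h'.pred
    refine ⟨w, h1, ?_⟩
    rw [Function.iterate_succ_apply, ← h2]
    congr 1
    funext y
    rw [deriv_mul (h.1 y) ((h'.1 y).pow _), deriv_pow (h'.1 y)]
    simp only [Pi.mul_apply, Pi.add_apply, Pi.pow_apply, Nat.add_sub_cancel]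
    push_cast
    ring

lemma D_of {x : ℝ} : ∀ (n : ℕ) (f : ℝ → ℝ), Cn n f → D x 0 (deriv^[n] f) → D x n f
  | 0, _, _, h => h
  | n + 1, f, h, h' => ⟨h 0 n.succ_pos, D_of n (deriv f) (fun k hk => h (k + 1) (by omega)) h'⟩

lemma baire {F : ℝ → ℝ} (hF : Differentiable ℝ F) : ∃ x, D x 0 (deriv F) := by
  have hc := hF.continuous
  obtain ⟨m, x, hx⟩ := nonempty_interior_of_iUnion_of_closed
    (f := fun m : ℕ => ⋂ t ∈ Metric.ball (0 : ℝ) (1 / (m + 1)), {x | |F (x + t) - F x| ≤ m * |t|})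
    (fun m => isClosed_biInter fun t _ => isClosed_le (by fun_prop) continuous_const) (by
      refine Set.eq_univ_of_forall fun x => ?_
      obtain ⟨C, hC⟩ := (hF x).isBigO_sub.bound
      obtain ⟨ε, hε, h1⟩ := Metric.eventually_nhds_iff.1 hC
      obtain ⟨k, hk⟩ := exists_nat_one_div_lt hε
      obtain ⟨l, hl⟩ := exists_nat_ge C
      refine Set.mem_iUnion.2 ⟨max k l, Set.mem_iInter₂.2 fun t ht => ?_⟩
      have h2 := h1 (y := x + t) (by
        simpa using (mem_ball_zero_iff.1 ht).trans_le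
          ((Nat.one_div_le_one_div (le_max_left k l)).trans hk.le))
      simp only [add_sub_cancel_left, Real.norm_eq_abs] at h2
      exact h2.trans (mul_le_mul_of_nonneg_right (hl.trans (Nat.cast_le.2 (le_max_right k l)))
        (abs_nonneg t)))
  refine ⟨x, m, ?_⟩
  filter_upwards [mem_interior_iff_mem_nhds.1 hx] with y hy
  refine norm_deriv_le_of_lip' (f := F) (Nat.cast_nonneg m) ?_
  filter_upwards [Metric.ball_mem_nhds y (show (0 : ℝ) < 1 / (m + 1) by positivity)] with z hz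
  simpa using Set.mem_iInter₂.1 hy (z - y) (by simpa [Real.dist_eq] using hz)

/-- For every `n ≥ 1`, `A_n` is not strongly `κ`-algebrable for any `κ ≠ 0`, in particular `κ = 𝔠`. -/
theorem result (n : ℕ) (hn : 1 ≤ n) (κ : Cardinal) (hκ : κ ≠ 0) :
    ¬ StronglyAlgebrable κ (An n) := by
  rintro ⟨X, rfl, hX⟩
  obtain ⟨f, hf⟩ := Cardinal.mk_ne_zero_iff.1 hκ
  have H := fun P h1 h2 => (hX 1 le_rfl P h1 h2 (fun _ => f)
    (Function.injective_of_subsingleton _) (fun _ => hf)).2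
  have h1 : Cn n f := by simpa using (H (MvPolynomial.X 0) (MvPolynomial.X_ne_zero _) (by simp)).1
  obtain ⟨m, rfl⟩ := Nat.exists_eq_add_of_le' hn
  obtain ⟨x, hx⟩ := baire (h1 m m.lt_succ_self)
  have h2 : D x (m + 1) f := D_of _ f h1 (by rwa [Function.iterate_succ_apply'])
  obtain ⟨w, ⟨C, hC⟩, hw⟩ := key (m + 1) f (f + fun _ => -f x) h2 (h2.add (D.const _ _))
  have h3 := (H (MvPolynomial.X 0 * (MvPolynomial.X 0 + MvPolynomial.C (-f x)) ^ (m + 1 + 1))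
    (mul_ne_zero (MvPolynomial.X_ne_zero _) (pow_ne_zero _ fun h => by
      simpa using congrArg (MvPolynomial.eval fun _ => f x + 1) h)) (by simp)).2
  rw [map_mul, map_pow, map_add, MvPolynomial.aeval_X, MvPolynomial.aeval_C] at h3
  replace h3 : NowhereHolder (w * (f + fun _ => -f x)) := hw ▸ h3
  obtain ⟨K, hK⟩ := (h2.1 x).isBigO_sub.bound
  refine h3 x 1 one_pos (C * K) ?_
  filter_upwards [mem_nhdsWithin_of_mem_nhds hC, mem_nhdsWithin_of_mem_nhds hK,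
    self_mem_nhdsWithin] with y y1 y2 y3
  have y4 : 0 < |y - x| := abs_pos.2 (sub_ne_zero.2 y3)
  simp only [Real.rpow_one, not_lt, div_le_iff₀ y4, Pi.mul_apply, Pi.add_apply, add_neg_cancel,
    mul_zero, sub_zero, abs_mul, mul_assoc]
  exact mul_le_mul y1 y2 (abs_nonneg _) ((abs_nonneg _).trans y1)

end Pool.Agent.Results.MP_4d07cf_an.NotAlg
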